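import Pool.Agent.W117.GS.Stm

/-!
# Integrability by testing with cutoff functions (PropIT)
-/

set_option autoImplicit false
set_option linter.unusedSectionVars false

open scoped ContDiff
open MeasureTheory Filter Topology Set

noncomputable section

namespace Pool.Agent.W382.GS.IT

open Pool.Agent.W117.GH Pool.Agent.W117.GS

lemma contDiff_pd {n : ℕ} {φ : ℂ → ℝ} (h : ContDiff ℝ (n + 1) φ) (j : Fin 2) :
    ContDiff ℝ n (pd j φ) := by
  have h1 : ContDiff ℝ n (fderiv ℝ φ) := h.fderiv_right (m := n) (by norm_cast)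
  exact h1.clm_apply contDiff_const

lemma hasCompactSupport_pd {φ : ℂ → ℝ} (h : HasCompactSupport φ) (j : Fin 2) :
    HasCompactSupport (pd j φ) := by
  have := h.fderiv (𝕜 := ℝ)
  exact this.comp_left (g := fun L : ℂ →L[ℝ] ℝ => L (dir j)) (by simp)

lemma contDiff_pd1 {φ : ℂ → ℝ} (h : ContDiff ℝ 2 φ) (j : Fin 2) : ContDiff ℝ 1 (pd j φ) := by
  have := contDiff_pd (n := 1) (φ := φ) (by simpa [one_add_one_eq_two] using h) j
  simpa using this

lemma continuous_pdd {φ : ℂ → ℝ} (h : ContDiff ℝ 2 φ) (j : Fin 2) :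
    Continuous (pd j (pd j φ)) :=
  (contDiff_pd (n := 0) (by simpa using contDiff_pd1 h j) j).continuous

lemma ibp {v φ : ℂ → ℝ} (hv : ContDiff ℝ 1 v) (hφ : ContDiff ℝ 1 φ)
    (hc : HasCompactSupport φ) (j : Fin 2) :
    ∫ x, v x * pd j φ x = - ∫ x, pd j v x * φ x := by
  have c1 : Continuous (fun x => fderiv ℝ v x (dir j)) :=
    (hv.continuous_fderiv (by norm_num)).clm_apply continuous_const
  have c2 : Continuous (fun x => fderiv ℝ φ x (dir j)) :=
    (hφ.continuous_fderiv (by norm_num)).clm_apply continuous_const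
  exact integral_mul_fderiv_eq_neg_fderiv_mul_of_integrable (μ := volume) (f := v)
      (g := φ) (v := dir j)
      ((c1.mul hφ.continuous).integrable_of_hasCompactSupport hc.mul_left)
      ((hv.continuous.mul c2).integrable_of_hasCompactSupport (hasCompactSupport_pd hc j).mul_left)
      ((hv.continuous.mul hφ.continuous).integrable_of_hasCompactSupport hc.mul_left)
      (fun x _ => hv.differentiable (by norm_num) x)
      (fun x _ => hφ.differentiable (by norm_num) x)

lemma green1 {v φ : ℂ → ℝ} (hv : ContDiff ℝ 2 v) (hφ : ContDiff ℝ 2 φ)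
    (hc : HasCompactSupport φ) (j : Fin 2) :
    ∫ x, v x * pd j (pd j φ) x = ∫ x, pd j (pd j v) x * φ x := by
  rw [ibp (hv.of_le (by norm_num)) (contDiff_pd1 hφ j) (hasCompactSupport_pd hc j) j,
    ibp (contDiff_pd1 hv j) (hφ.of_le (by norm_num)) hc j, neg_neg]

lemma green {v φ : ℂ → ℝ} (hv : ContDiff ℝ 2 v) (hφ : ContDiff ℝ 2 φ)
    (hc : HasCompactSupport φ) : ∫ x, v x * Lap φ x = ∫ x, Lap v x * φ x := by
  have e1 : ∀ j, Integrable (fun x => v x * pd j (pd j φ) x) := fun j =>
    (hv.continuous.mul (continuous_pdd hφ j)).integrable_of_hasCompactSupport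
      (hasCompactSupport_pd (hasCompactSupport_pd hc j) j).mul_left
  have e2 : ∀ j, Integrable (fun x => pd j (pd j v) x * φ x) := fun j =>
    ((continuous_pdd hv j).mul hφ.continuous).integrable_of_hasCompactSupport hc.mul_left
  have s1 : ∫ x, v x * Lap φ x = (∫ x, v x * pd 0 (pd 0 φ) x) +
      ∫ x, v x * pd 1 (pd 1 φ) x := by
    rw [← integral_add (e1 _) (e1 _)]
    congr 1; ext x; simp only [Lap]; ring
  have s2 : ∫ x, Lap v x * φ x = (∫ x, pd 0 (pd 0 v) x * φ x) +
      ∫ x, pd 1 (pd 1 v) x * φ x := by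
    rw [← integral_add (e2 _) (e2 _)]
    congr 1; ext x; simp only [Lap]; ring
  rw [s1, s2, green1 hv hφ hc, green1 hv hφ hc]

lemma continuous_Lap {φ : ℂ → ℝ} (h : ContDiff ℝ 2 φ) : Continuous (Lap φ) :=
  (continuous_pdd h 0).add (continuous_pdd h 1)

lemma hasCompactSupport_Lap {φ : ℂ → ℝ} (h : HasCompactSupport φ) :
    HasCompactSupport (Lap φ) :=
  (hasCompactSupport_pd (hasCompactSupport_pd h 0) 0).add
    (hasCompactSupport_pd (hasCompactSupport_pd h 1) 1)

lemma pd_scale (φ : ℂ → ℝ) (c : ℝ) (j : Fin 2) :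
    pd j (fun z => φ (c • z)) = fun z => c * pd j φ (c • z) := by
  funext z
  unfold pd
  have h := fderiv_comp_smul (f := φ) (x := z) c
  rw [h]
  rfl

lemma pd_const_mul (φ : ℂ → ℝ) (c : ℝ) (j : Fin 2) :
    pd j (fun z => c * φ z) = fun z => c * pd j φ z := by
  funext z
  unfold pd
  have h : fderiv ℝ (fun z => c * φ z) z = c • fderiv ℝ φ z :=
    congrFun (fderiv_const_smul_field (𝕜 := ℝ) (f := φ) c) z
  rw [h]
  rfl

lemma Lap_scale (φ : ℂ → ℝ) (c : ℝ) (z : ℂ) :
    Lap (fun z => φ (c • z)) z = c ^ 2 * Lap φ (c • z) := by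
  unfold Lap
  have h : ∀ j, pd j (pd j (fun z => φ (c • z))) z = c ^ 2 * pd j (pd j φ) (c • z) := by
    intro j
    rw [pd_scale, pd_const_mul (fun z => pd j φ (c • z)), pd_scale]
    ring
  rw [h, h]
  ring

theorem main : PropIT := by
  intro q f b C hq hq0 hf hb hC hqe
  have hC0 : 0 ≤ C := (abs_nonneg (b 0)).trans (hC 0)
  let χ : ContDiffBump (0 : ℂ) := ⟨1, 2, one_pos, one_lt_two⟩
  have hχs : ContDiff ℝ 2 (χ : ℂ → ℝ) := χ.contDiff
  have hχc : HasCompactSupport (χ : ℂ → ℝ) := χ.hasCompactSupport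
  set M : ℝ := ∫ z, |Lap χ z| with hM
  have key : ∀ R : ℝ, 0 < R → ∫ z in Metric.closedBall (0 : ℂ) R, q z ≤ (∫ z, |f z|) + C * M := by
    intro R hR
    set χR : ℂ → ℝ := fun z => χ (R⁻¹ • z) with hχR
    have hs : ContDiff ℝ 2 χR := hχs.comp (contDiff_const_smul R⁻¹)
    have hc : HasCompactSupport χR :=
      hχc.comp_homeomorph (Homeomorph.smulOfNeZero R⁻¹ (inv_ne_zero hR.ne'))
    have h0 : ∀ z, 0 ≤ χR z := fun z => χ.nonneg
    have h1 : ∀ z, χR z ≤ 1 := fun z => χ.le_one
    have hball : ∀ z ∈ Metric.closedBall (0 : ℂ) R, χR z = 1 := by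
      intro z hz
      apply χ.one_of_mem_closedBall
      rw [mem_closedBall_zero_iff] at hz ⊢
      rw [norm_smul, norm_inv, Real.norm_of_nonneg hR.le, inv_mul_le_iff₀ hR]
      change ‖z‖ ≤ R * 1
      simpa using hz
    have i1 : Integrable (fun z => q z * χR z) :=
      (hq.mul hs.continuous).integrable_of_hasCompactSupport hc.mul_left
    have i2 : Integrable (fun z => Lap b z * χR z) :=
      ((continuous_Lap hb).mul hs.continuous).integrable_of_hasCompactSupport hc.mul_left
    have i3 : Integrable (fun z => f z * χR z) := by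
      have h2 : (fun z => f z * χR z) = fun z => q z * χR z - Lap b z * χR z := by
        funext z
        rw [hqe z]
        ring
      rw [h2]
      exact i1.sub i2
    have i4 : Integrable (fun z => b z * Lap χR z) :=
      (hb.continuous.mul (continuous_Lap hs)).integrable_of_hasCompactSupport
        (hasCompactSupport_Lap hc).mul_left
    have i5 : Integrable (fun z => |Lap χR z|) :=
      ((continuous_Lap hs).integrable_of_hasCompactSupport (hasCompactSupport_Lap hc)).abs
    have e1 : ∫ z, q z * χR z = (∫ z, f z * χR z) + ∫ z, Lap b z * χR z := by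
      rw [← integral_add i3 i2]
      congr 1
      funext z
      rw [hqe z]
      ring
    have e2 : ∫ z, f z * χR z ≤ ∫ z, |f z| := by
      refine integral_mono i3 hf.abs fun z => ?_
      calc f z * χR z ≤ |f z| * χR z := mul_le_mul_of_nonneg_right (le_abs_self _) (h0 z)
        _ ≤ |f z| * 1 := mul_le_mul_of_nonneg_left (h1 z) (abs_nonneg _)
        _ = |f z| := mul_one _
    have e3 : ∫ z, |Lap χR z| = M := by
      have h2 : (fun z => |Lap χR z|) = fun z => (R⁻¹) ^ 2 * |Lap χ (R⁻¹ • z)| := by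
        funext z
        rw [hχR, Lap_scale, abs_mul, abs_of_nonneg (by positivity)]
      rw [h2, integral_const_mul, Measure.integral_comp_smul volume (fun z => |Lap χ z|) R⁻¹,
        Complex.finrank_real_complex, smul_eq_mul, ← hM]
      rw [abs_of_nonneg (by positivity)]
      have : R ≠ 0 := hR.ne'
      field_simp
    have e4 : ∫ z, Lap b z * χR z ≤ C * M := by
      rw [← green hb hs hc, ← e3, ← integral_const_mul]
      refine integral_mono i4 (i5.const_mul C) fun z => ?_
      calc b z * Lap χR z ≤ |b z * Lap χR z| := le_abs_self _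
        _ = |b z| * |Lap χR z| := abs_mul _ _
        _ ≤ C * |Lap χR z| := mul_le_mul_of_nonneg_right (hC z) (abs_nonneg _)
    have e5 : ∫ z in Metric.closedBall (0 : ℂ) R, q z ≤ ∫ z, q z * χR z := by
      have h2 : ∫ z in Metric.closedBall (0 : ℂ) R, q z =
          ∫ z in Metric.closedBall (0 : ℂ) R, q z * χR z := by
        refine setIntegral_congr_fun Metric.isClosed_closedBall.measurableSet fun z hz => ?_
        change q z = q z * χR z
        rw [hball z hz, mul_one]
      rw [h2]
      exact setIntegral_le_integral i1 (Eventually.of_forall fun z => mul_nonneg (hq0 z) (h0 z))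
    linarith
  have hcov : AECover (volume : Measure ℂ) atTop
      (fun n : ℕ => Metric.closedBall (0 : ℂ) ((n : ℝ) + 1)) := by
    apply aecover_closedBall
    exact tendsto_atTop_add_const_right _ _ tendsto_natCast_atTop_atTop
  refine hcov.integrable_of_integral_bounded_of_nonneg_ae ((∫ z, |f z|) + C * M) ?_ ?_ ?_
  · intro n
    exact hq.continuousOn.integrableOn_compact (isCompact_closedBall _ _)
  · exact Eventually.of_forall hq0
  · exact Eventually.of_forall fun n => key _ (by positivity)

end Pool.Agent.W382.GS.IT
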